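import Pool.Agent.Lib.MP_c5d73d_lc.F.Iter

/-!
# ITTMA: typed Martin's axiom for the finite support iteration
-/

universe u

open Cardinal Filter

namespace Pool.Agent.Lib.MP_c5d73d_lc.F.H35

open Pool.Agent.Lib.MP_100a6c_lc

/-- A set of fewer than `#I` elements is bounded. -/
theorem exists_above {I : Type u} [LinearOrder I] (hI : ℵ₀ < #I) (h1 : (#I).IsRegular)
    (h2 : ∀ i : I, #(Set.Iio i) < #I) (S : Set I) (hS : #S < #I) : ∃ β, ∀ i ∈ S, i < β := by
  by_contra hcon
  push Not at hcon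
  have h3 : (Set.univ : Set I) ⊆ ⋃ i : S, Set.Iic (i : I) := by
    intro β _
    obtain ⟨i, hi, hle⟩ := hcon β
    exact Set.mem_iUnion.2 ⟨⟨i, hi⟩, hle⟩
  have h4 : ∀ i : I, #(Set.Iic i) < #I := by
    intro i
    have h5 : Set.Iic i = insert i (Set.Iio i) := by
      ext x
      simp [le_iff_eq_or_lt]
    rw [h5]
    refine lt_of_le_of_lt (Cardinal.mk_insert_le) ?_
    exact Cardinal.add_lt_of_lt hI.le (h2 i) (lt_trans Cardinal.one_lt_aleph0 hI)
  have h5 : #(⋃ i : S, Set.Iic (i : I)) < #I :=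
    (Cardinal.card_iUnion_lt_iff_forall_of_isRegular h1 hS).2 fun i => h4 _
  have h6 : #I ≤ #(⋃ i : S, Set.Iic (i : I)) := by
    rw [← Cardinal.mk_univ]
    exact Cardinal.mk_le_mk_of_subset h3
  exact absurd h6 (not_le.2 h5)

/-- The Boolean valued relation with a new largest element `none`. -/
def leO {Q B : Type u} [CompleteBooleanAlgebra B] (le : Q → Q → B) : Option Q → Option Q → B
  | _, none => ⊤
  | none, some _ => ⊥
  | some q, some r => le q r

theorem leO_refl {Q B : Type u} [CompleteBooleanAlgebra B] {le : Q → Q → B}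
    (h : ∀ q, le q q = ⊤) (o : Option Q) : leO le o o = ⊤ := by
  cases o
  · rfl
  · exact h _

theorem leO_trans {Q B : Type u} [CompleteBooleanAlgebra B] {le : Q → Q → B}
    (h : ∀ p q r, le p q ⊓ le q r ≤ le p r) (o o' o'' : Option Q) :
    leO le o o' ⊓ leO le o' o'' ≤ leO le o o'' := by
  cases o <;> cases o' <;> cases o'' <;> simp [leO, h]

theorem exists_inj {I Q : Type u} (hI : ℵ₀ < #I) (hQ : #Q < #I) (z : I) :
    ∃ j : Option Q → I, Function.Injective j ∧ j none = z := by
  classical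
  have h1 : #(Option Q) ≤ #I := by
    rw [Cardinal.mk_option]
    exact (Cardinal.add_lt_of_lt hI.le hQ (lt_trans Cardinal.one_lt_aleph0 hI)).le
  obtain ⟨f⟩ := Cardinal.le_def _ _ |>.1 h1
  refine ⟨fun o => Equiv.swap (f none) z (f o), ?_, ?_⟩
  · exact (Equiv.injective _).comp f.injective
  · simp

theorem exists_inf_ne {B : Type u} [CompleteBooleanAlgebra B] {ι : Type u} {a : B} {f : ι → B}
    (h1 : a ≤ ⨆ i, f i) (h2 : a ≠ ⊥) : ∃ i, a ⊓ f i ≠ ⊥ := by
  by_contra hcon
  push Not at hcon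
  apply h2
  rw [← inf_eq_left.2 h1, inf_iSup_eq]
  simp [hcon]

section dens

variable {P : Type u} [Preorder P]

/-- Density criterion. -/
theorem pr_le_of_dense
    (r2 : ∀ (p : P) (A : Set P), pr p ≤ ⨆ n ∈ A, pr n ↔ ∀ p' ≤ p, ∃ p'' ≤ p', ∃ n ∈ A, p'' ≤ n)
    {p : P} {b : H1.RO P} (h : ∀ p' ≤ p, ∃ p'' ≤ p', pr p'' ≤ b) : pr p ≤ b := by
  have h1 : pr p ≤ ⨆ n ∈ {n : P | pr n ≤ b}, pr n := by
    rw [r2]
    intro p' hp'
    obtain ⟨p'', h2, h3⟩ := h p' hp'
    exact ⟨p'', h2, p'', h3, le_rfl⟩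
  exact h1.trans (iSup₂_le fun n hn => hn)

theorem le_of_pr
    (r3 : ∀ b : H1.RO P, b = ⨆ p : {p : P // pr p ≤ b}, pr p.1)
    {b c : H1.RO P} (h : ∀ p : P, pr p ≤ b → pr p ≤ c) : b ≤ c := by
  rw [r3 b]
  exact iSup_le fun p => h p.1 p.2

theorem top_of_dense
    (r2 : ∀ (p : P) (A : Set P), pr p ≤ ⨆ n ∈ A, pr n ↔ ∀ p' ≤ p, ∃ p'' ≤ p', ∃ n ∈ A, p'' ≤ n)
    (r3 : ∀ b : H1.RO P, b = ⨆ p : {p : P // pr p ≤ b}, pr p.1)
    {b : H1.RO P} (h : ∀ p : P, ∃ p' ≤ p, pr p' ≤ b) : b = ⊤ := by
  apply top_le_iff.1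
  apply le_of_pr r3
  intro p _
  exact pr_le_of_dense r2 fun p' _ => h p'

theorem pr_le_pr
    (r2 : ∀ (p : P) (A : Set P), pr p ≤ ⨆ n ∈ A, pr n ↔ ∀ p' ≤ p, ∃ p'' ≤ p', ∃ n ∈ A, p'' ≤ n)
    {p q : P} : pr p ≤ pr q ↔ ∀ p' ≤ p, ∃ p'' ≤ p', p'' ≤ q := by
  have h := r2 p {q}
  simpa using h

end dens

theorem ittma (hO : OrdiStatement.{u}) (hC : ItcccStatement.{u}) (hR : RoapiStatement.{u})
    (hF : ItfrcStatement.{u}) : IttmaStatement.{u} := by
  classical
  intro I _ _ z g hI hreg hIio hgood hbook hr ht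
  let _ : Preorder (Cnd z g) := itPre z g hr ht
  intro Q _ le hQ lerefl letrans hccc Λ D hΛ hD
  have hz : ∀ i, z ∈ (g i).C := fun i => (hgood i).z_mem
  obtain ⟨-, -, oc, -, -⟩ := hO I z g hz
  obtain ⟨r1, r2, r3, r4, r5, r6, r7, r8⟩ := hR (Cnd z g)
  have hccc' : RCCC (fun p q : Cnd z g => p ≤ q) := hC I z g hz ⊤
  have hch := r8 hccc'
  obtain ⟨j, hj, hjz⟩ := exists_inj hI hQ z
  choose A hAc hA using fun o o' : Option Q => hch (leO le o o')
  choose A' hA'c hA' using fun (l : Λ) (q : Q) => hch (D l q)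
  have hOQ : #(Option Q) < #I := by
    rw [Cardinal.mk_option]
    exact Cardinal.add_lt_of_lt hI.le hQ (lt_trans Cardinal.one_lt_aleph0 hI)
  -- a bound for all supports
  have hb1 : ∃ β, ∀ o o', ∀ n ∈ A o o', ∀ i, n.1 i ≠ z → i < β := by
    obtain ⟨β, hβ⟩ := exists_above hI hreg hIio
      (⋃ x : Option Q × Option Q, ⋃ n ∈ A x.1 x.2, {i | n.1 i ≠ z}) (by
        refine (Cardinal.card_iUnion_lt_iff_forall_of_isRegular hreg ?_).2 fun x => ?_
        · rw [Cardinal.mk_prod]
          simpa using Cardinal.mul_lt_of_lt hI.le hOQ hOQ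
        · refine lt_of_le_of_lt ?_ hI
          rw [Cardinal.le_aleph0_iff_set_countable]
          exact (hAc _ _).biUnion fun n _ => n.2.1.countable)
    refine ⟨β, fun o o' n hn i hi => hβ i ?_⟩
    exact Set.mem_iUnion.2 ⟨(o, o'), Set.mem_iUnion₂.2 ⟨n, hn, hi⟩⟩
  have hb2 : ∃ β, ∀ l q, ∀ n ∈ A' l q, ∀ i, n.1 i ≠ z → i < β := by
    obtain ⟨β, hβ⟩ := exists_above hI hreg hIio
      (⋃ x : Λ × Q, ⋃ n ∈ A' x.1 x.2, {i | n.1 i ≠ z}) (by
        refine (Cardinal.card_iUnion_lt_iff_forall_of_isRegular hreg ?_).2 fun x => ?_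
        · rw [Cardinal.mk_prod]
          simpa using Cardinal.mul_lt_of_lt hI.le hΛ hQ
        · refine lt_of_le_of_lt ?_ hI
          rw [Cardinal.le_aleph0_iff_set_countable]
          exact (hA'c _ _).biUnion fun n _ => n.2.1.countable)
    refine ⟨β, fun o o' n hn i hi => hβ i ?_⟩
    exact Set.mem_iUnion.2 ⟨(o, o'), Set.mem_iUnion₂.2 ⟨n, hn, hi⟩⟩
  obtain ⟨β₁, hβ₁⟩ := hb1
  obtain ⟨β₂, hβ₂⟩ := hb2
  -- the name
  let ν : NameI I :=
    { C := Set.range j
      N := fun u v => {p | ∃ o o', j o = u ∧ j o' = v ∧ ∃ n ∈ A o o', n.1 = p} }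
  have hν : Good (#I) z ν := by
    refine ⟨⟨none, hjz⟩, ?_, ?_, ?_, ?_⟩
    · refine lt_of_le_of_lt Cardinal.mk_range_le hOQ
    · intro u v
      by_cases h : (∃ o, j o = u) ∧ (∃ o', j o' = v)
      · obtain ⟨⟨o, rfl⟩, ⟨o', rfl⟩⟩ := h
        refine ((hAc o o').image Subtype.val).mono ?_
        rintro p ⟨o₁, o₂, h1, h2, n, hn, rfl⟩
        rw [hj h1, hj h2] at hn
        exact ⟨n, hn, rfl⟩
      · refine Set.countable_empty.mono ?_
        rintro p ⟨o₁, o₂, h1, h2, -⟩
        exact absurd ⟨⟨o₁, h1⟩, ⟨o₂, h2⟩⟩ h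
    · rintro u v p ⟨o₁, o₂, h1, h2, n, hn, rfl⟩
      exact n.2.1
    · rintro u v h
      ext p
      constructor
      · rintro ⟨o₁, o₂, h1, h2, -⟩
        rcases h with h | h
        · exact absurd ⟨o₁, h1⟩ h
        · exact absurd ⟨o₂, h2⟩ h
      · exact fun h => absurd h (Set.notMem_empty _)
  obtain ⟨α, hα, hgα⟩ := hbook ν hν (max β₁ β₂)
  have hα₁ : β₁ < α := lt_of_le_of_lt (le_max_left _ _) hα
  have hα₂ : β₂ < α := lt_of_le_of_lt (le_max_right _ _) hα
  have hCα : (g α).C = Set.range j := by rw [hgα]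
  have hnm : ∀ o o', nmAt z g α (j o) (j o') = A o o' := by
    intro o o'
    ext p
    simp only [nmAt, hgα, Set.mem_ofPred_eq, ν]
    constructor
    · rintro ⟨o₁, o₂, h1, h2, n, hn, h3⟩
      rw [hj h1, hj h2] at hn
      rwa [← Subtype.ext h3]
    · intro h
      exact ⟨o, o', rfl, rfl, p, h, rfl⟩
  have hsA : ∀ o o', ∀ n ∈ A o o', ∀ β, α ≤ β → n.1 β = z := by
    intro o o' n hn β hβ
    by_contra hcon
    exact absurd (lt_trans (hβ₁ o o' n hn β hcon) hα₁) (not_lt.2 hβ)
  have hsA' : ∀ l q, ∀ n ∈ A' l q, ∀ β, α ≤ β → n.1 β = z := by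
    intro l q n hn β hβ
    by_contra hcon
    exact absurd (lt_trans (hβ₂ l q n hn β hcon) hα₂) (not_lt.2 hβ)
  -- forcing at stage `α` is a Boolean inequality
  have hfrc : ∀ o o' p, Frc (RL z g α) (nmAt z g α (j o) (j o')) p ↔ pr p ≤ leO le o o' := by
    intro o o' p
    rw [hnm, hA o o']
    exact (hF I z g hz hr ht α (A o o') (hsA o o')).1 p
  have hfrcz : ∀ o p, Frc (RL z g α) (nmAt z g α (j o) z) p := by
    intro o p
    have h1 := (hfrc o none p).2 (by
      have : leO le o none = ⊤ := by cases o <;> rfl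
      rw [this]
      exact le_top)
    rwa [hjz] at h1
  have hdep : ∀ o o' (p p' : Cnd z g), (∀ β < α, p.1 β = p'.1 β) → pr p ≤ leO le o o' →
      pr p' ≤ leO le o o' := by
    intro o o' p p' h
    rw [hA o o']
    exact (hF I z g hz hr ht α (A o o') (hsA o o')).2 p p' h
  have hdepD : ∀ l q (p p' : Cnd z g), (∀ β < α, p.1 β = p'.1 β) → pr p ≤ D l q →
      pr p' ≤ D l q := by
    intro l q p p' h
    rw [hA' l q]
    exact (hF I z g hz hr ht α (A' l q) (hsA' l q)).2 p p' h
  have hcase : ∀ u ∈ (g α).C, ∃ o, j o = u := by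
    intro u hu
    rw [hCα] at hu
    exact hu
  -- change one coordinate
  have hpmem : ∀ (p : Cnd z g) (o : Option Q) (f : I → I),
      (∀ i, f i = p.1 i ∨ f i = z ∨ (i = α ∧ f i = j o)) →
      {i | f i ≠ z}.Finite ∧ ∀ i, f i ∈ (g i).C := by
    intro p o f hf
    constructor
    · refine (p.2.1.union (Set.finite_singleton α)).subset ?_
      intro i hi
      rcases hf i with h | h | ⟨h, -⟩
      · left
        have : p.1 i ≠ z := by rw [← h]; exact hi
        exact this
      · exact absurd h hi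
      · right; exact h
    · intro i
      rcases hf i with h | h | ⟨h, h'⟩
      · rw [h]; exact p.2.2 i
      · rw [h]; exact hz i
      · rw [h', h, hCα]; exact ⟨o, rfl⟩
  -- `Valid`
  have hval : Valid (RL z g α) (g α).C z (nmAt z g α) := by
    refine ⟨?_, ?_, ?_, ?_⟩
    · intro p u hu
      obtain ⟨o, rfl⟩ := hcase u hu
      rw [hfrc, leO_refl lerefl]
      exact le_top
    · intro p u hu v hv w hw h1 h2
      obtain ⟨o, rfl⟩ := hcase u hu
      obtain ⟨o', rfl⟩ := hcase v hv
      obtain ⟨o'', rfl⟩ := hcase w hw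
      rw [hfrc] at h1 h2 ⊢
      exact (le_inf h1 h2).trans (leO_trans letrans _ _ _)
    · intro p u hu
      obtain ⟨o, rfl⟩ := hcase u hu
      exact hfrcz o p
    · intro T f u hu hanti
      have hT0 : #{t : T // u t = z} ≤ ℵ₀ := by
        refine hC I z g hz (α : WithTop I) {t : T // u t = z} (fun t => f t.1) ?_
        rintro t t' htt ⟨p, hp1, hp2⟩
        rw [RS_coe] at hp1 hp2
        refine hanti t.1 t'.1 (fun h => htt (Subtype.ext h)) ⟨p, z, hz α, hp1, hp2, ?_, ?_⟩
        · rw [t.2]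
          have h1 := hfrcz none p
          rwa [hjz] at h1
        · rw [t'.2]
          have h1 := hfrcz none p
          rwa [hjz] at h1
      have hT1 : #{t : T // u t ≠ z} ≤ ℵ₀ := by
        have hq : ∀ t : {t : T // u t ≠ z}, ∃ q : Q, j (some q) = u t.1 := by
          intro t
          obtain ⟨o, ho⟩ := hcase _ (hu t.1)
          cases o with
          | none => exact absurd (ho.symm.trans hjz) t.2
          | some q => exact ⟨q, ho⟩
        choose q hq using hq
        let cut : Cnd z g → Cnd z g := fun p =>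
          ⟨fun i => if i < α then p.1 i else z, hpmem p none _ fun i => by
            by_cases h : i < α
            · left; simp [h]
            · right; left; simp [h]⟩
        have hcut : ∀ p p' : Cnd z g, p' ≤ cut p → RL z g α p' p := by
          intro p p' h
          rw [RL_iff]
          intro γ hγ
          have h1 := h γ (WithTop.coe_lt_top γ)
          have h2 : (cut p).1 γ = p.1 γ := by simp [cut, hγ]
          rw [h2] at h1
          exact h1
        refine hccc {t : T // u t ≠ z} (fun t => pr (cut (f t.1))) q (fun t => r4 _) ?_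
        intro t t' htt
        by_contra hne
        obtain ⟨p0, hp0⟩ := r5 _ hne
        have hne3 : ∃ s, pr p0 ⊓ (le s (q t) ⊓ le s (q t')) ≠ ⊥ :=
          exists_inf_ne (hp0.trans inf_le_right) (r4 p0)
        obtain ⟨s, hs⟩ := hne3
        obtain ⟨p1, hp1⟩ := r5 _ hs
        have hp10 : pr p1 ≤ pr p0 := hp1.trans inf_le_left
        have hpt : pr p1 ≤ pr (cut (f t.1)) :=
          hp10.trans (hp0.trans (inf_le_left.trans inf_le_left))
        have hpt' : pr p1 ≤ pr (cut (f t'.1)) :=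
          hp10.trans (hp0.trans (inf_le_left.trans inf_le_right))
        obtain ⟨p2, hp21, hp2⟩ := (pr_le_pr r2).1 hpt p1 le_rfl
        obtain ⟨p3, hp32, hp3⟩ := (pr_le_pr r2).1 hpt' p2 hp21
        have hp31 : pr p3 ≤ pr p1 := r6 _ _ (hp32.trans hp21)
        refine hanti t.1 t'.1 (fun h => htt (Subtype.ext h)) ⟨p3, j (some s), ?_, ?_, ?_, ?_, ?_⟩
        · rw [hCα]; exact ⟨_, rfl⟩
        · exact hcut _ _ (hp32.trans hp2)
        · exact hcut _ _ hp3
        · rw [← hq t, hfrc]
          exact hp31.trans (hp1.trans (inf_le_right.trans inf_le_left))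
        · rw [← hq t', hfrc]
          exact hp31.trans (hp1.trans (inf_le_right.trans inf_le_right))
      have h1 : (Set.univ : Set T) = {t | u t = z} ∪ {t | u t ≠ z} := by
        ext t; simp [em]
      rw [← Cardinal.mk_univ, h1]
      refine (Cardinal.mk_union_le _ _).trans ?_
      rw [← Cardinal.aleph0_add_aleph0]
      exact add_le_add hT0 hT1
  -- the order at coordinate `α`
  have hord : ∀ (p q : Cnd z g) (o o' : Option Q), p ≤ q → p.1 α = j o → q.1 α = j o' →
      pr p ≤ leO le o o' := by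
    intro p q o o' h h1 h2
    have h3 := h α (WithTop.coe_lt_top α) hval
    rw [h1, h2, hfrc] at h3
    exact h3
  have hstp : ∀ (p q : Cnd z g), (∀ γ < α, Stp (RL z g γ) (g γ).C z (nmAt z g γ) p (p.1 γ) (q.1 γ)) →
      (∀ o o', p.1 α = j o → q.1 α = j o' → pr p ≤ leO le o o') →
      (∀ γ, α < γ → p.1 γ = q.1 γ ∨ q.1 γ = z) → p ≤ q := by
    intro p q h1 h2 h3 γ _
    rcases lt_trichotomy γ α with h | h | h
    · exact h1 γ h
    · subst h
      intro _
      obtain ⟨o, ho⟩ := hcase _ (p.2.2 γ)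
      obtain ⟨o', ho'⟩ := hcase _ (q.2.2 γ)
      rw [← ho, ← ho', hfrc]
      exact h2 o o' ho.symm ho'.symm
    · intro hv
      rcases h3 γ h with h4 | h4
      · rw [h4]; exact hv.refl p _ (q.2.2 γ)
      · rw [h4]; exact hv.top p _ (p.2.2 γ)
  -- the conditions `δ`
  let δ : Option Q → Cnd z g := fun o =>
    ⟨fun i => if i = α then j o else z, by
      refine ⟨(Set.finite_singleton α).subset ?_, ?_⟩
      · intro i hi
        by_contra h
        exact hi (by simp only [Set.mem_singleton_iff] at h; simp [h])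
      · intro i
        by_cases h : i = α
        · subst h; simp [hCα]
        · simp [h, hz i]⟩
  have hδα : ∀ o, (δ o).1 α = j o := fun o => by simp [δ]
  have hδ : ∀ (p : Cnd z g) (o o' : Option Q), p.1 α = j o → pr p ≤ leO le o o' → p ≤ δ o' := by
    intro p o o' h1 h2
    refine hstp p (δ o') ?_ ?_ ?_
    · intro γ hγ hv
      have : (δ o').1 γ = z := by simp [δ, hγ.ne]
      rw [this]
      exact hv.top p _ (p.2.2 γ)
    · intro o₁ o₂ h3 h4
      have h5 : o₁ = o := hj (h3.symm.trans h1)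
      have h6 : o₂ = o' := hj (h4.symm.trans (hδα o'))
      rw [h5, h6]
      exact h2
    · intro γ hγ
      right
      simp [δ, hγ.ne']
  -- make the coordinate `α` an element of `Q`
  have hsome : ∀ p : Cnd z g, ∃ p' ≤ p, ∃ q : Q, p'.1 α = j (some q) := by
    intro p
    obtain ⟨o, ho⟩ := hcase _ (p.2.2 α)
    cases o with
    | some q => exact ⟨p, le_rfl, q, ho.symm⟩
    | none =>
      obtain ⟨q⟩ := ‹Nonempty Q›
      let p' : Cnd z g := ⟨fun i => if i = α then j (some q) else p.1 i,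
        hpmem p (some q) _ fun i => by
          by_cases h : i = α
          · right; right; exact ⟨h, by simp [h]⟩
          · left; simp [h]⟩
      have hp' : p'.1 α = j (some q) := by simp [p']
      refine ⟨p', hstp p' p ?_ ?_ ?_, q, hp'⟩
      · intro γ hγ hv
        have h1 : p'.1 γ = p.1 γ := by simp [p', hγ.ne]
        rw [h1]
        exact hv.refl p' _ (p.2.2 γ)
      · intro o₁ o₂ _ h4
        have h6 : o₂ = none := hj (h4.symm.trans ho.symm)
        subst h6
        have : leO le o₁ none = ⊤ := by cases o₁ <;> rfl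
        rw [this]
        exact le_top
      · intro γ hγ
        left
        simp [p', hγ.ne']
  refine ⟨fun q => pr (δ (some q)), ?_, ?_, ?_, ?_⟩
  · -- upwards closed
    intro q r
    apply le_of_pr r3
    intro p hp
    rw [pr_le_pr r2]
    intro p' hp'
    obtain ⟨p'', h1, h2⟩ := (pr_le_pr r2).1 (hp.trans inf_le_left) p' hp'
    refine ⟨p'', h1, ?_⟩
    obtain ⟨o, ho⟩ := hcase _ (p''.2.2 α)
    refine hδ p'' o (some r) ho.symm ?_
    have h3 : pr p'' ≤ leO le o (some q) := hord _ _ _ _ h2 ho.symm (hδα _)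
    have h4 : pr p'' ≤ leO le (some q) (some r) :=
      (r6 _ _ (h1.trans hp')).trans (hp.trans inf_le_right)
    exact (le_inf h3 h4).trans (leO_trans letrans _ _ _)
  · -- directed
    intro q r
    apply le_of_pr r3
    intro p hp
    apply pr_le_of_dense r2
    intro p' hp'
    obtain ⟨p1, h1, h2⟩ := (pr_le_pr r2).1 (hp.trans inf_le_left) p' hp'
    obtain ⟨p2, h3, h4⟩ := (pr_le_pr r2).1 (hp.trans inf_le_right) p1 (h1.trans hp')
    refine ⟨p2, h3.trans h1, ?_⟩
    obtain ⟨o, ho⟩ := hcase _ (p2.2.2 α)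
    have h5 : pr p2 ≤ leO le o (some q) := hord _ _ _ _ (h3.trans h2) ho.symm (hδα _)
    have h6 : pr p2 ≤ leO le o (some r) := hord _ _ _ _ h4 ho.symm (hδα _)
    cases o with
    | none => exact absurd (le_bot_iff.1 h5) (r4 p2)
    | some s =>
      refine le_trans ?_ (le_iSup _ s)
      refine le_inf (le_inf ?_ h5) h6
      apply r6
      refine hδ p2 (some s) (some s) ho.symm ?_
      rw [leO_refl lerefl]
      exact le_top
  · -- nonempty
    apply top_of_dense r2 r3
    intro p
    obtain ⟨p', h1, q, h2⟩ := hsome p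
    refine ⟨p', h1, le_trans ?_ (le_iSup _ q)⟩
    apply r6
    refine hδ p' (some q) (some q) h2 ?_
    rw [leO_refl lerefl]
    exact le_top
  · -- dense sets
    intro l
    apply top_of_dense r2 r3
    intro p
    obtain ⟨p1, h1, q0, h2⟩ := hsome p
    have hne : ∃ r, pr p1 ⊓ (D l r ⊓ le r q0) ≠ ⊥ :=
      exists_inf_ne (le_top.trans (hD l q0).ge) (r4 p1)
    obtain ⟨r, hne⟩ := hne
    obtain ⟨t0, ht0⟩ := r5 _ hne
    obtain ⟨t, htt0, htp1⟩ := (pr_le_pr r2).1 (ht0.trans inf_le_left) t0 le_rfl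
    have htD : pr t ≤ D l r := (r6 _ _ htt0).trans (ht0.trans (inf_le_right.trans inf_le_left))
    have htl : pr t ≤ leO le (some r) (some q0) :=
      (r6 _ _ htt0).trans (ht0.trans (inf_le_right.trans inf_le_right))
    have hfin : {i | (fun i => if i < α then t.1 i else if i = α then j (some r) else p1.1 i) i
        ≠ z}.Finite := by
      refine ((t.2.1.union p1.2.1).union (Set.finite_singleton α)).subset ?_
      intro i hi
      rcases lt_trichotomy i α with h | h | h
      · left; left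
        have h' : t.1 i ≠ z := by simpa [h] using hi
        exact h'
      · right; exact h
      · left; right
        have h' : p1.1 i ≠ z := by simpa [h.not_gt, h.ne'] using hi
        exact h'
    let p' : Cnd z g := ⟨fun i => if i < α then t.1 i else if i = α then j (some r) else p1.1 i,
      hfin, by
        intro i
        rcases lt_trichotomy i α with h | h | h
        · simp only [h, if_true]; exact t.2.2 i
        · subst h; simp [hCα]
        · simp only [h.not_gt, h.ne', if_false]; exact p1.2.2 i⟩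
    have hp't : ∀ γ < α, t.1 γ = p'.1 γ := fun γ hγ => by simp [p', hγ]
    have hp'α : p'.1 α = j (some r) := by simp [p']
    have hp'l : pr p' ≤ leO le (some r) (some q0) := hdep _ _ _ _ hp't htl
    have hp'D : pr p' ≤ D l r := hdepD _ _ _ _ hp't htD
    have hp'1 : p' ≤ p1 := by
      have h3 : RS z g (α : WithTop I) p' p1 := by
        refine oc (α : WithTop I) t p' p1 p1 ?_ ?_
        · intro β hβ
          exact ⟨hp't β (WithTop.coe_lt_coe.1 hβ), rfl⟩
        · intro β _
          exact htp1 β (WithTop.coe_lt_top β)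
      refine hstp p' p1 ?_ ?_ ?_
      · intro γ hγ
        exact h3 γ (WithTop.coe_lt_coe.2 hγ)
      · intro o₁ o₂ h4 h5
        have h6 : o₁ = some r := hj (h4.symm.trans hp'α)
        have h7 : o₂ = some q0 := hj (h5.symm.trans h2)
        rw [h6, h7]
        exact hp'l
      · intro γ hγ
        left
        simp [p', hγ.not_gt, hγ.ne']
    refine ⟨p', hp'1.trans h1, le_trans ?_ (le_iSup _ r)⟩
    refine le_inf ?_ hp'D
    apply r6
    refine hδ p' (some r) (some r) hp'α ?_
    rw [leO_refl lerefl]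
    exact le_top

end Pool.Agent.Lib.MP_c5d73d_lc.F.H35
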